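import Pool.Agent.H95.MM2

set_option autoImplicit false

open Pool.Agent.H95.Mms

theorem Pool.Agent.Results.MP_bb77e0_gt.NotSigma.result :
    ¬ @SigmaCompactSpace Cl (ballTop conc) :=
  not_sigma
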